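import Mathlib

/-!
Strongly maximal chains in posets without infinite antichains: the two notions
used in the statement.
-/

namespace Pool.Agent.MP583f0b

/-- The finite antichain condition: every antichain of `P` is finite. -/
def FAC (P : Type*) [PartialOrder P] : Prop :=
  ∀ A : Set P, IsAntichain (· ≤ ·) A → A.Finite

/-- `C` is a strongly maximal chain: it is a chain and every chain `D` satisfies
`|D \ C| ≤ |C \ D|` (inequality of cardinals). -/
def IsSMC {P : Type*} [PartialOrder P] (C : Set P) : Prop :=
  IsChain (· ≤ ·) C ∧
    ∀ D : Set P, IsChain (· ≤ ·) D →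
      Cardinal.mk (D \ C : Set P) ≤ Cardinal.mk (C \ D : Set P)

end Pool.Agent.MP583f0b
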