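import Pool.Agent.Lib.MP_583f0b_co.Poset

universe u v

namespace Pool.Agent.MP583f0b

/-- FAC posets in which every chain has a finite improvement. -/
def Bad (P : Type*) [PartialOrder P] : Prop :=
  FAC P ∧ ∀ C : Set P, IsChain (· ≤ ·) C →
    ∃ D : Set P, IsChain (· ≤ ·) D ∧ (D \ C).Finite ∧ (C \ D).Finite ∧
      (C \ D).ncard < (D \ C).ncard

theorem bad_pt : Bad Pt := ⟨Pt.fac, fun _ hC => Pt.main hC⟩

/-- Transfer along an order isomorphism. -/
theorem Bad.of_iso {P : Type u} {Q : Type v} [PartialOrder P] [PartialOrder Q] (e : P ≃o Q)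
    (h : Bad P) : Bad Q := by
  refine ⟨?_, ?_⟩
  · intro A hA
    have h1 : IsAntichain (· ≤ ·) (e ⁻¹' A) := by
      intro x hx y hy hxy hle
      exact hA hx hy (fun h => hxy (e.injective h)) (e.monotone hle)
    have h2 := (h.1 _ h1).image e
    rwa [Set.image_preimage_eq _ e.surjective] at h2
  · intro C hC
    have h1 : IsChain (· ≤ ·) (e ⁻¹' C) := by
      intro x hx y hy hxy
      rcases hC hx hy (fun h => hxy (e.injective h)) with h | h
      · exact Or.inl (e.le_iff_le.1 h)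
      · exact Or.inr (e.le_iff_le.1 h)
    obtain ⟨D, hD, h2, h3, h4⟩ := h.2 _ h1
    have e1 : e '' D \ C = e '' (D \ e ⁻¹' C) := by
      rw [Set.image_sdiff e.injective, Set.image_preimage_eq _ e.surjective]
    have e2 : C \ e '' D = e '' (e ⁻¹' C \ D) := by
      rw [Set.image_sdiff e.injective, Set.image_preimage_eq _ e.surjective]
    refine ⟨e '' D, ?_, ?_, ?_, ?_⟩
    · rintro _ ⟨x, hx, rfl⟩ _ ⟨y, hy, rfl⟩ hxy
      rcases hD hx hy (fun h => hxy (congrArg e h)) with h | h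
      · exact Or.inl (e.monotone h)
      · exact Or.inr (e.monotone h)
    · rw [e1]; exact h2.image e
    · rw [e2]; exact h3.image e
    · rw [e1, e2, Set.ncard_image_of_injective _ e.injective,
        Set.ncard_image_of_injective _ e.injective]
      exact h4

/-- Putting a linear order on top. -/
theorem Bad.lex {P : Type u} {Q : Type v} [PartialOrder P] [LinearOrder Q] (h : Bad P) :
    Bad (P ⊕ₗ Q) := by
  classical
  set i : P → P ⊕ₗ Q := fun x => Sum.inlₗ x with hi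
  have hinj : Function.Injective i := by
    intro x y hxy
    exact Sum.inl_injective (toLex.injective hxy)
  have hile : ∀ x y, i x ≤ i y ↔ x ≤ y := fun x y => Sum.Lex.inl_le_inl_iff
  have hlr : ∀ (x : P) (q : Q), i x ≤ (Sum.inrₗ q : P ⊕ₗ Q) := fun x q =>
    Sum.Lex.inl_le_inr x q
  have hrr : ∀ (p q : Q), (Sum.inrₗ p : P ⊕ₗ Q) ≤ Sum.inrₗ q ∨
      (Sum.inrₗ q : P ⊕ₗ Q) ≤ Sum.inrₗ p := by
    intro p q
    rcases le_total p q with h | h
    · exact Or.inl (Sum.Lex.inr_le_inr_iff.2 h)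
    · exact Or.inr (Sum.Lex.inr_le_inr_iff.2 h)
  have hcases : ∀ z : P ⊕ₗ Q, (∃ x, z = i x) ∨ ∃ q, z = (Sum.inrₗ q : P ⊕ₗ Q) := by
    intro z
    rcases hz : ofLex z with x | q
    · exact Or.inl ⟨x, by rw [hi]; exact (ofLex.injective hz : z = Sum.inlₗ x)⟩
    · exact Or.inr ⟨q, (ofLex.injective hz : z = Sum.inrₗ q)⟩
  have hne : ∀ (x : P) (q : Q), i x ≠ (Sum.inrₗ q : P ⊕ₗ Q) := by
    intro x q hxq
    exact Sum.inl_ne_inr (toLex.injective hxq)
  refine ⟨?_, ?_⟩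
  · intro A hA
    have h1 : IsAntichain (· ≤ ·) (i ⁻¹' A) := by
      intro x hx y hy hxy hle
      exact hA hx hy (fun h => hxy (hinj h)) ((hile x y).2 hle)
    have h2 : (A ∩ {z | ∃ q, z = (Sum.inrₗ q : P ⊕ₗ Q)}).Subsingleton := by
      rintro _ ⟨hx, p, rfl⟩ _ ⟨hy, q, rfl⟩
      by_contra hpq
      rcases hrr p q with h | h
      · exact hA hx hy hpq h
      · exact hA hy hx (Ne.symm hpq) h
    refine (((h.1 _ h1).image i).union h2.finite).subset ?_
    intro z hz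
    rcases hcases z with ⟨x, rfl⟩ | ⟨q, rfl⟩
    · exact Or.inl ⟨x, hz, rfl⟩
    · exact Or.inr ⟨hz, q, rfl⟩
  · intro C hC
    have h1 : IsChain (· ≤ ·) (i ⁻¹' C) := by
      intro x hx y hy hxy
      rcases hC hx hy (fun h => hxy (hinj h)) with h | h
      · exact Or.inl ((hile x y).1 h)
      · exact Or.inr ((hile y x).1 h)
    obtain ⟨D, hD, h2, h3, h4⟩ := h.2 _ h1
    set E : Set (P ⊕ₗ Q) := i '' D ∪ (C ∩ {z | ∃ q, z = (Sum.inrₗ q : P ⊕ₗ Q)}) with hE
    have e1 : E \ C = i '' (D \ i ⁻¹' C) := by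
      ext z
      constructor
      · rintro ⟨(⟨x, hx, rfl⟩ | ⟨hz, -⟩), hzC⟩
        · exact ⟨x, ⟨hx, hzC⟩, rfl⟩
        · exact absurd hz hzC
      · rintro ⟨x, ⟨hx, hxC⟩, rfl⟩
        exact ⟨Or.inl ⟨x, hx, rfl⟩, hxC⟩
    have e2 : C \ E = i '' (i ⁻¹' C \ D) := by
      ext z
      constructor
      · rintro ⟨hz, hzE⟩
        rcases hcases z with ⟨x, rfl⟩ | ⟨q, rfl⟩
        · exact ⟨x, ⟨hz, fun hx => hzE (Or.inl ⟨x, hx, rfl⟩)⟩, rfl⟩
        · exact absurd (Or.inr ⟨hz, q, rfl⟩) hzE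
      · rintro ⟨x, ⟨hx, hxD⟩, rfl⟩
        refine ⟨hx, ?_⟩
        rintro (⟨y, hy, hyx⟩ | ⟨-, q, hq⟩)
        · exact hxD (hinj hyx ▸ hy)
        · exact hne x q hq
    refine ⟨E, ?_, ?_, ?_, ?_⟩
    · rintro _ (⟨x, hx, rfl⟩ | ⟨hx, p, rfl⟩) _ (⟨y, hy, rfl⟩ | ⟨hy, q, rfl⟩) hxy
      · rcases hD hx hy (fun h => hxy (congrArg i h)) with h | h
        · exact Or.inl ((hile x y).2 h)
        · exact Or.inr ((hile y x).2 h)
      · exact Or.inl (hlr x q)
      · exact Or.inr (hlr y p)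
      · exact hrr p q
    · rw [e1]; exact h2.image i
    · rw [e2]; exact h3.image i
    · rw [e1, e2, Set.ncard_image_of_injective _ hinj, Set.ncard_image_of_injective _ hinj]
      exact h4

theorem exists_bad (κ : Cardinal.{u}) (hκ : Cardinal.aleph0 ≤ κ) :
    ∃ (P : Type u) (_ : PartialOrder P), Cardinal.mk P = κ ∧ Bad P := by
  refine ⟨ULift.{u} Pt ⊕ₗ κ.ord.ToType, inferInstance, ?_, ?_⟩
  · have h1 : Cardinal.mk (ULift.{u} Pt ⊕ₗ κ.ord.ToType) =
        Cardinal.mk (ULift.{u} Pt ⊕ κ.ord.ToType) := Cardinal.mk_congr ofLex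
    rw [h1, Cardinal.mk_sum, Cardinal.lift_id, Cardinal.lift_id, Cardinal.mk_ord_toType,
      Cardinal.mk_uLift, Cardinal.mk_eq_aleph0 Pt, Cardinal.lift_aleph0]
    exact Cardinal.add_eq_right hκ hκ
  · exact Bad.lex (Bad.of_iso ULift.orderIso.symm bad_pt)

theorem mk_lt_of_ncard_lt {P : Type u} {A B : Set P} (hA : A.Finite) (hB : B.Finite)
    (h : A.ncard < B.ncard) : Cardinal.mk A < Cardinal.mk B := by
  rw [← Set.cast_ncard hA, ← Set.cast_ncard hB]
  exact_mod_cast h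

theorem final (κ : Cardinal.{u}) (hκ : Cardinal.aleph0 ≤ κ) :
    ∃ (P : Type u) (_ : PartialOrder P), Cardinal.mk P = κ ∧ FAC P ∧
      (∀ C : Set P, IsChain (· ≤ ·) C → ∃ D : Set P, IsChain (· ≤ ·) D ∧
        (C \ D).Finite ∧ (D \ C).Finite ∧
        Cardinal.mk (C \ D : Set P) < Cardinal.mk (D \ C : Set P)) ∧
      ¬ ∃ C : Set P, IsSMC C := by
  obtain ⟨P, _, hP, hfac, hbad⟩ := exists_bad κ hκ
  have key : ∀ C : Set P, IsChain (· ≤ ·) C → ∃ D : Set P, IsChain (· ≤ ·) D ∧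
        (C \ D).Finite ∧ (D \ C).Finite ∧
        Cardinal.mk (C \ D : Set P) < Cardinal.mk (D \ C : Set P) := by
    intro C hC
    obtain ⟨D, hD, h1, h2, h3⟩ := hbad C hC
    exact ⟨D, hD, h2, h1, mk_lt_of_ncard_lt h2 h1 h3⟩
  refine ⟨P, inferInstance, hP, hfac, key, ?_⟩
  rintro ⟨C, hC, hmax⟩
  obtain ⟨D, hD, -, -, h⟩ := key C hC
  exact absurd (hmax D hD) (not_le.2 h)

end Pool.Agent.MP583f0b
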