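import Pool.Agent.Lib.MP_583f0b_co.Defs

namespace Pool.Agent.MP583f0b

/-- Points of the countable poset: level, column, place, and position in a block. -/
@[ext] structure Pt where
  lvl : ℕ
  col : ℕ
  pl : ℕ
  t : ℕ
  hcol : col ≤ pl
  ht : t ≤ lvl

namespace Pt

/-- The order. -/
def le (x y : Pt) : Prop :=
  y.lvl + 2 ≤ x.lvl ∨
  (x.lvl = y.lvl + 1 ∧ (x.col < y.col ∨ x.pl < y.pl)) ∨
  (x.lvl = y.lvl ∧
    ((x.col = y.col ∧ (x.pl < y.pl ∨ (x.pl = y.pl ∧ x.t ≤ y.t))) ∨
      (x.col < y.col ∧ x.pl + 2 ≤ y.pl)))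

instance : PartialOrder Pt where
  le := le
  le_refl x := by unfold le; omega
  le_trans x y z := by unfold le; omega
  le_antisymm x y h1 h2 := by
    unfold le at h1 h2
    have a1 : x.lvl = y.lvl := by omega
    have a2 : x.col = y.col := by omega
    have a3 : x.pl = y.pl := by omega
    have a4 : x.t = y.t := by omega
    exact Pt.ext a1 a2 a3 a4

theorem le_def (x y : Pt) : x ≤ y ↔
  (y.lvl + 2 ≤ x.lvl ∨
  (x.lvl = y.lvl + 1 ∧ (x.col < y.col ∨ x.pl < y.pl)) ∨
  (x.lvl = y.lvl ∧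
    ((x.col = y.col ∧ (x.pl < y.pl ∨ (x.pl = y.pl ∧ x.t ≤ y.t))) ∨
      (x.col < y.col ∧ x.pl + 2 ≤ y.pl)))) := Iff.rfl

/-- The coordinates. -/
def coord (x : Pt) : ℕ × ℕ × ℕ × ℕ := (x.lvl, x.col, x.pl, x.t)

theorem coord_inj : Function.Injective coord := by
  intro x y h
  simp only [coord, Prod.mk.injEq] at h
  exact Pt.ext h.1 h.2.1 h.2.2.1 h.2.2.2

instance : Countable Pt := coord_inj.countable

theorem finite_bdd (N M : ℕ) : {x : Pt | x.lvl ≤ N ∧ x.pl ≤ M}.Finite := by
  have h := (Set.finite_Iic ((N, M, M, N) : ℕ × ℕ × ℕ × ℕ)).preimage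
    (f := coord) coord_inj.injOn
  refine h.subset ?_
  rintro x ⟨h1, h2⟩
  have h3 := x.hcol
  have h4 := x.ht
  simp only [Set.mem_preimage, Set.mem_Iic, coord, Prod.mk_le_mk]
  omega

/-- A point in a given level, column (total function version). -/
def mk' (n k : ℕ) (q : ℕ × ℕ) : Pt :=
  ⟨n, k, max k q.1, min q.2 n, le_max_left _ _, min_le_right _ _⟩

theorem mk'_injOn (n k : ℕ) : Set.InjOn (mk' n k) {q | k ≤ q.1 ∧ q.2 ≤ n} := by
  rintro ⟨a, b⟩ ⟨h1, h2⟩ ⟨c, d⟩ ⟨h3, h4⟩ h
  simp only [mk', Pt.mk.injEq] at h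
  simp only at h1 h2 h3 h4
  have := h.2.2
  rw [Prod.mk.injEq]
  omega

instance : Infinite Pt := by
  refine Infinite.of_injective (fun n : ℕ => mk' n 0 (0, 0)) ?_
  intro a b h
  simpa [mk'] using h

/-- Antichains are finite inside one level. -/
theorem level_finite {A : Set Pt} (hA : IsAntichain (· ≤ ·) A) (l : ℕ) :
    (A ∩ {x | x.lvl = l}).Finite := by
  classical
  by_cases hne : (A ∩ {x | x.lvl = l}).Nonempty
  · have hex : ∃ k, ∃ a ∈ A, a.lvl = l ∧ a.col = k := by
      obtain ⟨a, ha, hal⟩ := hne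
      exact ⟨a.col, a, ha, hal, rfl⟩
    obtain ⟨a, ha, hal, hak⟩ := Nat.find_spec hex
    refine (finite_bdd l (a.pl + 1)).subset ?_
    rintro b ⟨hb, hbl⟩
    simp only [Set.mem_ofPred_eq] at hbl ⊢
    refine ⟨hbl.le, ?_⟩
    have hcol : a.col ≤ b.col := by
      rw [hak]; exact Nat.find_min' hex ⟨b, hb, hbl, rfl⟩
    by_contra hlt
    have hne' : a ≠ b := by rintro rfl; omega
    refine hA ha hb hne' ?_
    show a ≤ b
    rw [le_def]
    omega
  · rw [Set.not_nonempty_iff_eq_empty] at hne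
    rw [hne]; exact Set.finite_empty

theorem fac : FAC Pt := by
  classical
  intro A hA
  by_cases hne : A.Nonempty
  · have hex : ∃ l, ∃ a ∈ A, a.lvl = l := by
      obtain ⟨a, ha⟩ := hne
      exact ⟨a.lvl, a, ha, rfl⟩
    obtain ⟨a, ha, hal⟩ := Nat.find_spec hex
    refine ((level_finite hA a.lvl).union (level_finite hA (a.lvl + 1))).subset ?_
    intro b hb
    have h1 : a.lvl ≤ b.lvl := by
      rw [hal]; exact Nat.find_min' hex ⟨b, hb, rfl⟩
    by_cases h2 : b.lvl = a.lvl
    · exact Or.inl ⟨hb, h2⟩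
    · by_cases h3 : b.lvl = a.lvl + 1
      · exact Or.inr ⟨hb, h3⟩
      · exfalso
        have hne' : b ≠ a := by rintro rfl; omega
        refine hA hb ha hne' ?_
        show b ≤ a
        rw [le_def]
        omega
  · rw [Set.not_nonempty_iff_eq_empty] at hne
    rw [hne]; exact Set.finite_empty

end Pt

/-- Finite improvement: replace the part of `C` inside `F` by the finite set `G`. -/
theorem improve {P : Type*} [PartialOrder P] {C F G : Set P}
    (hC : IsChain (· ≤ ·) C) (hCF : (C ∩ F).Finite) (hG : G.Finite) (hGF : G ⊆ F)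
    (hGc : IsChain (· ≤ ·) G) (hcomp : ∀ g ∈ G, ∀ c ∈ C, c ∉ F → g ≤ c ∨ c ≤ g)
    (hlt : (C ∩ F).ncard < G.ncard) :
    ∃ D : Set P, IsChain (· ≤ ·) D ∧ (D \ C).Finite ∧ (C \ D).Finite ∧
      (C \ D).ncard < (D \ C).ncard := by
  classical
  refine ⟨(C \ F) ∪ G, ?_, ?_, ?_, ?_⟩
  · rintro x (⟨hx, hxF⟩ | hx) y (⟨hy, hyF⟩ | hy) hxy
    · exact hC hx hy hxy
    · rcases hcomp y hy x hx hxF with h | h
      · exact Or.inr h
      · exact Or.inl h
    · rcases hcomp x hx y hy hyF with h | h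
      · exact Or.inl h
      · exact Or.inr h
    · exact hGc hx hy hxy
  · refine hG.subset ?_
    rintro x ⟨(⟨hx, -⟩ | hx), hxC⟩
    · exact absurd hx hxC
    · exact hx
  · refine hCF.subset ?_
    rintro x ⟨hx, hxD⟩
    refine ⟨hx, ?_⟩
    by_contra h
    exact hxD (Or.inl ⟨hx, h⟩)
  · have e1 : C \ ((C \ F) ∪ G) = (C ∩ F) \ G := by
      ext x
      simp only [Set.mem_sdiff, Set.mem_union, Set.mem_inter_iff]
      tauto
    have e2 : ((C \ F) ∪ G) \ C = G \ (C ∩ F) := by
      ext x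
      simp only [Set.mem_sdiff, Set.mem_union, Set.mem_inter_iff]
      have := @hGF x
      tauto
    rw [e1, e2]
    have h1 := Set.ncard_inter_add_ncard_sdiff_eq_ncard (C ∩ F) G hCF
    have h2 := Set.ncard_inter_add_ncard_sdiff_eq_ncard G (C ∩ F) hG
    rw [Set.inter_comm G] at h2
    omega

namespace Pt

theorem finite_of_pl_bdd {A : Set Pt} {n M : ℕ} (h : ∀ x ∈ A, x.lvl ≤ n ∧ x.pl ≤ M) :
    A.Finite := (finite_bdd n M).subset h

/-- If level `n + 1` of a chain is infinite then its columns are smaller than those in level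
`n`. -/
theorem col_lt {C : Set Pt} (hC : IsChain (· ≤ ·) C) {n : ℕ}
    (hinf : (C ∩ {x | x.lvl = n + 1}).Infinite) {x y : Pt} (hx : x ∈ C) (hxl : x.lvl = n + 1)
    (hy : y ∈ C) (hyl : y.lvl = n) : x.col < y.col := by
  have : ∃ z ∈ C, z.lvl = n + 1 ∧ max x.pl y.pl + 1 ≤ z.pl := by
    by_contra hcon
    push Not at hcon
    refine hinf ((finite_bdd (n + 1) (max x.pl y.pl)).subset ?_)
    rintro z ⟨hz, hzl⟩
    have h1 := hcon z hz hzl
    simp only [Set.mem_ofPred_eq] at hzl ⊢
    omega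
  obtain ⟨z, hz, hzl, hzp⟩ := this
  have hzy : z ≠ y := by rintro rfl; omega
  have hzx : z ≠ x := by rintro rfl; omega
  have h1 := hC hz hy hzy
  have h2 := hC hz hx hzx
  simp only [le_def] at h1 h2
  omega

/-- The case of unbounded columns in a level. -/
theorem improve_unbounded {C : Set Pt} (hC : IsChain (· ≤ ·) C) {n : ℕ}
    (hub : ∀ k, ∃ x ∈ C, x.lvl = n ∧ k < x.col) :
    ∃ D : Set Pt, IsChain (· ≤ ·) D ∧ (D \ C).Finite ∧ (C \ D).Finite ∧
      (C \ D).ncard < (D \ C).ncard := by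
  classical
  obtain ⟨a, ha, hal, -⟩ := hub 0
  -- the first element of a larger column
  have hexb : ∃ p, ∃ b ∈ C, b.lvl = n ∧ a.col < b.col ∧ b.pl = p := by
    obtain ⟨b, hb, hbl, hbc⟩ := hub a.col
    exact ⟨b.pl, b, hb, hbl, hbc, rfl⟩
  obtain ⟨b, hb, hbl, hbc, hbp⟩ := Nat.find_spec hexb
  have hbmin : ∀ x ∈ C, x.lvl = n → a.col < x.col → b.pl ≤ x.pl := by
    intro x hx hxl hxc
    rw [hbp]
    exact Nat.find_min' hexb ⟨x, hx, hxl, hxc, rfl⟩
  have hexc : ∃ p, ∃ c ∈ C, c.lvl = n ∧ b.col < c.col ∧ c.pl = p := by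
    obtain ⟨c, hc, hcl, hcc⟩ := hub b.col
    exact ⟨c.pl, c, hc, hcl, hcc, rfl⟩
  obtain ⟨c, hc, hcl, hcc, hcp⟩ := Nat.find_spec hexc
  have hcmin : ∀ x ∈ C, x.lvl = n → b.col < x.col → c.pl ≤ x.pl := by
    intro x hx hxl hxc
    rw [hcp]
    exact Nat.find_min' hexc ⟨x, hx, hxl, hxc, rfl⟩
  have hcmp : ∀ x ∈ C, ∀ y ∈ C, x ≤ y ∨ y ≤ x := by
    intro x hx y hy
    by_cases hxy : x = y
    · exact Or.inl hxy.le
    · exact hC hx hy hxy
  have hab := hcmp a ha b hb
  have hbc' := hcmp b hb c hc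
  simp only [le_def] at hab hbc'
  have hinf : (C ∩ {x | x.lvl = n}).Infinite := by
    intro hfin
    obtain ⟨M, hM⟩ := (hfin.image Pt.col).bddAbove
    obtain ⟨x, hx, hxl, hxc⟩ := hub M
    have := hM (Set.mem_image_of_mem Pt.col (⟨hx, hxl⟩ : x ∈ C ∩ {x | x.lvl = n}))
    omega
  have hacol := a.hcol
  set S : Finset (ℕ × ℕ) := Finset.Ico a.pl (c.pl - 1) ×ˢ Finset.range (n + 1) with hS
  set F : Set Pt := {x | x.lvl = n ∧ a.pl ≤ x.pl ∧ x.pl < c.pl} with hF
  set G : Set Pt := mk' n a.col '' (S : Set (ℕ × ℕ)) with hGdef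
  have hGmem : ∀ g ∈ G, g.lvl = n ∧ g.col = a.col ∧ a.pl ≤ g.pl ∧ g.pl + 2 ≤ c.pl := by
    rintro g ⟨q, hq, rfl⟩
    simp only [hS, Finset.coe_product, Set.mem_prod, Finset.coe_Ico, Set.mem_Ico,
      Finset.coe_range, Set.mem_Iio] at hq
    simp only [mk', true_and]
    omega
  have hGfin : G.Finite := (Finset.finite_toSet S).image _
  refine improve hC (F := F) (G := G) ?_ hGfin ?_ ?_ ?_ ?_
  · refine finite_of_pl_bdd (n := n) (M := c.pl) ?_
    rintro x ⟨-, h1, -, h3⟩
    omega
  · intro g hg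
    have := hGmem g hg
    simp only [hF, Set.mem_ofPred_eq]
    omega
  · intro x hx y hy _
    have h1 := hGmem x hx
    have h2 := hGmem y hy
    simp only [le_def]
    omega
  · intro g hg x hx hxF
    have h1 := hGmem g hg
    simp only [hF, Set.mem_ofPred_eq, not_and, not_lt] at hxF
    have hax := hcmp a ha x hx
    have hcx := hcmp c hc x hx
    simp only [le_def] at hax hcx ⊢
    by_cases h5 : x.lvl = n
    · by_cases h6 : a.pl ≤ x.pl
      · have := hxF h5 h6
        omega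
      · omega
    · by_cases h7 : x.lvl + 1 = n
      · subst h7
        have := col_lt hC hinf ha hal hx rfl
        omega
      · omega
  · have hcardG : G.ncard = S.card := by
      rw [hGdef, Set.InjOn.ncard_image, Set.ncard_coe_finset]
      refine (mk'_injOn n a.col).mono ?_
      intro q hq
      simp only [hS, Finset.coe_product, Set.mem_prod, Finset.coe_Ico, Set.mem_Ico,
        Finset.coe_range, Set.mem_Iio] at hq
      simp only [Set.mem_ofPred_eq]
      omega
    have hu : b.pl - 1 ∈ Finset.Ico a.pl (c.pl - 1) := by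
      rw [Finset.mem_Ico]; omega
    set T : Finset (ℕ × ℕ) := ((Finset.Ico a.pl (c.pl - 1)).erase (b.pl - 1)) ×ˢ
      Finset.range (n + 1) with hT
    have hTS : T.card < S.card := by
      rw [hT, hS, Finset.card_product, Finset.card_product, Finset.card_range]
      exact Nat.mul_lt_mul_of_pos_right (Finset.card_erase_lt_of_mem hu) (Nat.succ_pos n)
    have hCF : (C ∩ F).ncard ≤ T.card := by
      rw [← Set.ncard_coe_finset T]
      refine Set.ncard_le_ncard_of_injOn (fun x => (x.pl, x.t)) ?_ ?_ (Finset.finite_toSet T)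
      · rintro x ⟨hx, hxl, hx1, hx2⟩
        have hxt := x.ht
        have hxb := hcmp x hx b hb
        have hxc := hcmp x hx c hc
        have hxa := hcmp x hx a ha
        have m1 := hcmin x hx hxl
        have m2 := hbmin x hx hxl
        simp only [le_def] at hxb hxc hxa
        simp only [hT, Finset.coe_product, Set.mem_prod, Finset.mem_coe, Finset.mem_erase,
          Finset.mem_Ico, Finset.mem_range]
        omega
      · rintro x ⟨hx, hxl, hx1, hx2⟩ y ⟨hy, hyl, hy1, hy2⟩ hxy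
        simp only [Prod.mk.injEq] at hxy
        have := hcmp x hx y hy
        simp only [le_def] at this
        refine Pt.ext ?_ ?_ ?_ ?_ <;> omega
    omega

/-- The case of a finite level `m + 1` below which the columns are bounded. -/
theorem improve_gap {C : Set Pt} (hC : IsChain (· ≤ ·) C) {m k : ℕ}
    (hfin : (C ∩ {x | x.lvl = m + 1}).Finite)
    (hb : ∀ x ∈ C, x.lvl = m + 2 → x.col < k) :
    ∃ D : Set Pt, IsChain (· ≤ ·) D ∧ (D \ C).Finite ∧ (C \ D).Finite ∧
      (C \ D).ncard < (D \ C).ncard := by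
  classical
  have hcmp : ∀ x ∈ C, ∀ y ∈ C, x ≤ y ∨ y ≤ x := by
    intro x hx y hy
    by_cases hxy : x = y
    · exact Or.inl hxy.le
    · exact hC hx hy hxy
  set K := (C ∩ {x | x.lvl = m + 1}).ncard with hK
  set M := K + k * (m + 2) + 1 + k with hM
  set S : Finset (ℕ × ℕ) := Finset.Ico k M ×ˢ Finset.range (m + 2) with hS
  set F : Set Pt := {x | x.lvl = m + 1} ∪ {x | x.lvl = m ∧ x.pl < M} with hF
  set G : Set Pt := mk' (m + 1) k '' (S : Set (ℕ × ℕ)) with hGdef
  have hGmem : ∀ g ∈ G, g.lvl = m + 1 ∧ g.col = k ∧ k ≤ g.pl ∧ g.pl < M := by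
    rintro g ⟨q, hq, rfl⟩
    simp only [hS, Finset.coe_product, Set.mem_prod, Finset.coe_Ico, Set.mem_Ico,
      Finset.coe_range, Set.mem_Iio] at hq
    simp only [mk', true_and]
    omega
  have hGfin : G.Finite := (Finset.finite_toSet S).image _
  have hfin2 : (C ∩ {x | x.lvl = m ∧ x.pl < M}).Finite := by
    refine finite_of_pl_bdd (n := m) (M := M) ?_
    rintro x ⟨-, h1, h3⟩
    omega
  refine improve hC (F := F) (G := G) ?_ hGfin ?_ ?_ ?_ ?_
  · rw [hF, Set.inter_union_distrib_left]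
    exact hfin.union hfin2
  · intro g hg
    exact Or.inl (hGmem g hg).1
  · intro x hx y hy _
    have h1 := hGmem x hx
    have h2 := hGmem y hy
    simp only [le_def]
    omega
  · intro g hg x hx hxF
    have h1 := hGmem g hg
    simp only [hF, Set.mem_union, Set.mem_ofPred_eq, not_or, not_and, not_lt] at hxF
    obtain ⟨h2, h3⟩ := hxF
    have h4 := hb x hx
    simp only [le_def]
    by_cases h5 : x.lvl = m
    · have := h3 h5
      omega
    · by_cases h6 : x.lvl = m + 2
      · have := h4 h6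
        omega
      · omega
  · have hcardG : G.ncard = S.card := by
      rw [hGdef, Set.InjOn.ncard_image, Set.ncard_coe_finset]
      refine (mk'_injOn (m + 1) k).mono ?_
      intro q hq
      simp only [hS, Finset.coe_product, Set.mem_prod, Finset.coe_Ico, Set.mem_Ico,
        Finset.coe_range, Set.mem_Iio] at hq
      simp only [Set.mem_ofPred_eq]
      omega
    have hScard : S.card = (M - k) * (m + 2) := by
      rw [hS, Finset.card_product, Finset.card_range, Nat.card_Ico]
    set T : Finset (ℕ × ℕ) := Finset.range M ×ˢ Finset.range (m + 1) with hT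
    have hTcard : T.card = M * (m + 1) := by
      rw [hT, Finset.card_product, Finset.card_range, Finset.card_range]
    have hCF2 : (C ∩ {x | x.lvl = m ∧ x.pl < M}).ncard ≤ T.card := by
      rw [← Set.ncard_coe_finset T]
      refine Set.ncard_le_ncard_of_injOn (fun x => (x.pl, x.t)) ?_ ?_ (Finset.finite_toSet T)
      · rintro x ⟨hx, hxl, hx1⟩
        have hxt := x.ht
        simp only [hT, Finset.coe_product, Set.mem_prod, Finset.mem_coe, Finset.mem_range]
        omega
      · rintro x ⟨hx, hxl, hx1⟩ y ⟨hy, hyl, hy1⟩ hxy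
        simp only [Prod.mk.injEq] at hxy
        have := hcmp x hx y hy
        simp only [le_def] at this
        refine Pt.ext ?_ ?_ ?_ ?_ <;> omega
    have hCF : (C ∩ F).ncard ≤ K + T.card := by
      rw [hF, Set.inter_union_distrib_left]
      refine (Set.ncard_union_le _ _).trans ?_
      omega
    have hMk : M - k = K + k * (m + 2) + 1 := by omega
    have : K + T.card < S.card := by
      rw [hTcard, hScard, hMk, hM]
      ring_nf
      nlinarith
    omega

/-- Every chain of the countable poset has a finite improvement. -/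
theorem main {C : Set Pt} (hC : IsChain (· ≤ ·) C) :
    ∃ D : Set Pt, IsChain (· ≤ ·) D ∧ (D \ C).Finite ∧ (C \ D).Finite ∧
      (C \ D).ncard < (D \ C).ncard := by
  classical
  by_cases h1 : ∃ n, ∀ k, ∃ x ∈ C, x.lvl = n ∧ k < x.col
  · obtain ⟨n, hn⟩ := h1
    exact improve_unbounded hC hn
  push Not at h1
  by_cases h2 : ∃ m, (C ∩ {x | x.lvl = m + 1}).Finite
  · obtain ⟨m, hm⟩ := h2
    obtain ⟨k, hk⟩ := h1 (m + 2)
    exact improve_gap hC (k := k + 1) hm fun x hx hxl => by
      have := hk x hx hxl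
      omega
  exfalso
  push Not at h2
  have hne : ∀ m, ∃ x ∈ C, x.lvl = m + 1 := by
    intro m
    obtain ⟨x, hx, hxl⟩ := Set.Infinite.nonempty (h2 m)
    exact ⟨x, hx, hxl⟩
  choose f hf hfl using hne
  have hdec : ∀ m, (f (m + 1)).col < (f m).col := fun m =>
    col_lt hC (n := m + 1) (h2 (m + 1)) (hf (m + 1)) (hfl (m + 1)) (hf m) (hfl m)
  have : ∀ m, (f m).col + m ≤ (f 0).col := by
    intro m
    induction m with
    | zero => simp
    | succ m ih => have := hdec m; omega
  have := this ((f 0).col + 1)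
  omega

end Pt

end Pool.Agent.MP583f0b
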